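import Mathlib
import Pool.Agent.H.MP_15e61c_co.Core

set_option autoImplicit false

namespace Pool.Agent.Results.MP_15e61c_co.Bounds

open Finset

/-- the set of values `a i + a j + (j - i)` for `1 ≤ i < j ≤ n` -/
def S (n : ℕ) (a : ℕ → ℕ) : Finset ℕ :=
  ((Icc 1 n ×ˢ Icc 1 n).filter (fun z => z.1 < z.2)).image (fun z => a z.1 + a z.2 + (z.2 - z.1))

/-- the property `P(c)` -/
def P (c : ℝ) : Prop :=
  ∃ δ : ℝ, 0 < δ ∧ ∃ n₀ : ℕ, ∀ n : ℕ, 2 ≤ n → n₀ ≤ n → ∀ a : ℕ → ℕ,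
    (∀ i ∈ Icc 1 n, (a i : ℝ) ≤ (n : ℝ) ^ c) → δ * (n : ℝ) ^ c ≤ (S n a).card

def D : Finset ℕ := {0, 1, 3, 13, 32, 36, 43, 52}

def D2 : Finset ℕ := image₂ (· + ·) D D

def U : ℕ → Finset ℕ
  | 0 => {0}
  | t + 1 => image₂ (fun d x => d + 57 * x) D (U t)

def T : ℕ → Finset ℕ
  | 0 => {0}
  | t + 1 => image₂ (fun d x => d + 57 * x) D2 (T t)

lemma D2_card : D2.card = 36 := by decide +kernel

lemma D_lt : ∀ d ∈ D, d < 57 := by decide

lemma D_cov : ∀ r ∈ range 57, ∃ d ∈ D, ∃ e ∈ D, (r + d) % 57 = e := by decide +kernel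

lemma add_mem : ∀ t, ∀ u ∈ U t, ∀ v ∈ U t, u + v ∈ T t
  | 0 => by simp [U, T]
  | t + 1 => by
    intro u hu v hv
    obtain ⟨d, hd, x, hx, rfl⟩ := mem_image₂.1 hu
    obtain ⟨e, he, y, hy, rfl⟩ := mem_image₂.1 hv
    exact mem_image₂.2 ⟨d + e, mem_image₂.2 ⟨d, hd, e, he, rfl⟩, x + y, add_mem t x hx y hy,
      by ring⟩

lemma T_card : ∀ t, (T t).card ≤ 36 ^ t
  | 0 => by simp [T]
  | t + 1 => by
    refine le_trans (card_image₂_le _ _ _) ?_
    rw [D2_card, pow_succ']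
    exact Nat.mul_le_mul_left _ (T_card t)

lemma U_lt : ∀ t, ∀ u ∈ U t, u < 57 ^ t
  | 0 => by simp [U]
  | t + 1 => by
    intro u hu
    obtain ⟨d, hd, x, hx, rfl⟩ := mem_image₂.1 hu
    have h1 := D_lt d hd
    have h2 := U_lt t x hx
    rw [pow_succ]
    show d + 57 * x < _
    omega

lemma cov : ∀ t, ∀ i : ℕ, ∃ u ∈ U t, ∃ v ∈ U t, i + u ≡ v [MOD 57 ^ t]
  | 0 => by intro i; exact ⟨0, by simp [U], 0, by simp [U], by simp [Nat.modEq_one]⟩
  | t + 1 => by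
    intro i
    obtain ⟨d, hd, e, he, h⟩ := D_cov (i % 57) (mem_range.2 (Nat.mod_lt _ (by norm_num)))
    obtain ⟨x, hx, y, hy, h'⟩ := cov t ((i + d) / 57)
    refine ⟨d + 57 * x, mem_image₂.2 ⟨d, hd, x, hx, rfl⟩, e + 57 * y,
      mem_image₂.2 ⟨e, he, y, hy, rfl⟩, ?_⟩
    have e1 : i + (d + 57 * x) = e + 57 * ((i + d) / 57 + x) := by omega
    rw [e1, pow_succ']
    exact Nat.ModEq.add_left _ (Nat.ModEq.mul_left' 57 h')

lemma small (t n : ℕ) : ∃ a : ℕ → ℕ, (∀ i, a i ≤ 2 * 57 ^ t) ∧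
    (S n a).card ≤ (n / 57 ^ t + 5) * 36 ^ t := by
  choose u hu v hv h using cov t
  have hM : 0 < 57 ^ t := by positivity
  refine ⟨fun i => u i + v i, fun i => ?_, ?_⟩
  · have := U_lt t _ (hu i)
    have := U_lt t _ (hv i)
    show u i + v i ≤ _
    omega
  have hc : (S n (fun i => u i + v i)).card ≤ (range (n / 57 ^ t + 5) ×ˢ
      (T t).image (fun x => (2 * x) % 57 ^ t)).card := by
    apply card_le_card_of_injOn (fun s => (s / 57 ^ t, s % 57 ^ t))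
    · intro s hs
      obtain ⟨⟨i, j⟩, hz, rfl⟩ := mem_image.1 hs
      simp only [mem_filter, mem_product, mem_Icc] at hz
      have h1 := U_lt t _ (hu i)
      have h2 := U_lt t _ (hv i)
      have h3 := U_lt t _ (hu j)
      have h4 := U_lt t _ (hv j)
      simp only [coe_product, Set.mem_prod, mem_coe, mem_range, mem_image]
      constructor
      · have : u i + v i + (u j + v j) + (j - i) ≤ n + 57 ^ t * 4 := by omega
        have h5 := Nat.div_le_div_right (c := 57 ^ t) this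
        rw [Nat.add_mul_div_left _ _ hM] at h5
        omega
      · refine ⟨u i + v j, add_mem t _ (hu i) _ (hv j), ?_⟩
        have k1 : u i + v i + (u j + v j) + (j - i) + (i + u i) =
            (2 * u i + v j + v i) + (j + u j) := by omega
        have k2 : u i + v i + (u j + v j) + (j - i) + v i ≡
            2 * (u i + v j) + v i [MOD 57 ^ t] := by
          refine ((h i).symm.add_left _).trans ?_
          rw [k1]
          refine ((h j).add_left _).trans ?_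
          rw [show 2 * u i + v j + v i + v j = 2 * (u i + v j) + v i by ring]
        exact (Nat.ModEq.add_right_cancel' _ k2).symm
    · intro x _ y _ hxy
      simp only [Prod.mk.injEq] at hxy
      rw [← Nat.div_add_mod x (57 ^ t), ← Nat.div_add_mod y (57 ^ t), hxy.1, hxy.2]
  refine le_trans hc ?_
  rw [card_product, card_range]
  exact Nat.mul_le_mul_left _ (le_trans card_image_le (T_card t))

lemma notP (c : ℝ) (hc : 449 / 500 ≤ c) : ¬ P c := by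
  rintro ⟨δ, hδ, n₀, h⟩
  set A : ℕ := 36 ^ 449 * 57 ^ 51 with hA
  set B : ℕ := 57 ^ 449 with hB
  have hAB : A < B := by rw [hA, hB]; decide +kernel
  have hB0 : (0 : ℝ) < B := by rw [hB]; positivity
  have hρ : (A : ℝ) / B < 1 := by rw [div_lt_one hB0]; exact_mod_cast hAB
  have hlim := tendsto_pow_atTop_nhds_zero_of_lt_one (by positivity) hρ
  obtain ⟨s, hs1, hs2⟩ := ((hlim.eventually (gt_mem_nhds (show (0 : ℝ) < δ / 9 by positivity))).and
    (Filter.eventually_ge_atTop n₀)).exists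
  obtain ⟨a, ha, hS⟩ := small (449 * s) (4 * 57 ^ (500 * s))
  have hpos : 0 < 57 ^ (500 * s) := by positivity
  have hn0 : n₀ ≤ 4 * 57 ^ (500 * s) := by
    have : 500 * s < 57 ^ (500 * s) := Nat.lt_pow_self (by norm_num)
    omega
  have hpow : ((2 * 57 ^ (449 * s) : ℕ) : ℝ) ≤ ((4 * 57 ^ (500 * s) : ℕ) : ℝ) ^ c := by
    have h1 : (1 : ℝ) ≤ ((4 * 57 ^ (500 * s) : ℕ) : ℝ) := by exact_mod_cast (by omega)
    refine le_trans ?_ (Real.rpow_le_rpow_of_exponent_le h1 hc)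
    push_cast
    rw [Real.mul_rpow (by norm_num) (by positivity), ← Real.rpow_natCast (57 : ℝ) (500 * s),
      ← Real.rpow_mul (by norm_num)]
    have e1 : ((500 * s : ℕ) : ℝ) * (449 / 500) = ((449 * s : ℕ) : ℝ) := by push_cast; ring
    rw [e1, Real.rpow_natCast]
    refine mul_le_mul_of_nonneg_right ?_ (by positivity)
    have e2 : (2 : ℝ) = (4 : ℝ) ^ ((1 : ℝ) / 2) := by
      rw [show (4 : ℝ) = 2 ^ (2 : ℝ) by norm_num, ← Real.rpow_mul (by norm_num)]; norm_num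
    rw [e2]
    exact Real.rpow_le_rpow_of_exponent_le (by norm_num) (by norm_num)
  have h1 := h (4 * 57 ^ (500 * s)) (by omega) hn0 a
    (fun i _ => le_trans (by exact_mod_cast ha i) hpow)
  have e3 : 4 * 57 ^ (500 * s) / 57 ^ (449 * s) = 4 * 57 ^ (51 * s) := by
    rw [show 500 * s = 51 * s + 449 * s by ring, pow_add, ← mul_assoc,
      Nat.mul_div_cancel _ (by positivity)]
  have h2 : (S (4 * 57 ^ (500 * s)) a).card ≤ 9 * A ^ s := by
    refine le_trans hS ?_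
    rw [e3, hA, mul_pow, ← pow_mul, ← pow_mul]
    have : 0 < 57 ^ (51 * s) := by positivity
    have h3 : 4 * 57 ^ (51 * s) + 5 ≤ 9 * 57 ^ (51 * s) := by omega
    calc (4 * 57 ^ (51 * s) + 5) * 36 ^ (449 * s) ≤ 9 * 57 ^ (51 * s) * 36 ^ (449 * s) :=
          Nat.mul_le_mul_right _ h3
      _ = 9 * (36 ^ (449 * s) * 57 ^ (51 * s)) := by ring
  have h3 : ((S (4 * 57 ^ (500 * s)) a).card : ℝ) ≤ 9 * (A : ℝ) ^ s := by exact_mod_cast h2
  have h4 : ((2 * 57 ^ (449 * s) : ℕ) : ℝ) = 2 * (B : ℝ) ^ s := by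
    rw [pow_mul, ← hB]; push_cast; rfl
  rw [div_pow, div_lt_div_iff₀ (by positivity) (by norm_num)] at hs1
  have h5 : δ * (2 * (B : ℝ) ^ s) ≤ δ * ((4 * 57 ^ (500 * s) : ℕ) : ℝ) ^ c :=
    mul_le_mul_of_nonneg_left (h4 ▸ hpow) hδ.le
  have h6 : 0 < δ * (B : ℝ) ^ s := by positivity
  linarith

lemma cube (m : ℕ) (hm : 0 < m) : ∃ G, 0 < G ∧ m ≤ G ^ 3 ∧ G ^ 3 ≤ 8 * m := by
  induction m, hm using Nat.le_induction with
  | base => exact ⟨1, by norm_num, by norm_num, by norm_num⟩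
  | succ m hm ih =>
    obtain ⟨G, h0, h1, h2⟩ := ih
    by_cases h : m + 1 ≤ G ^ 3
    · exact ⟨G, h0, h, by omega⟩
    · have : G ^ 3 < (2 * G) ^ 3 := Nat.pow_lt_pow_left (by omega) (by norm_num)
      refine ⟨2 * G, by omega, by omega, ?_⟩
      rw [mul_pow]; omega

lemma isP (c : ℝ) (h0 : 0 ≤ c) (hc : c < 3 / 4) : P c := by
  set ε : ℝ := (1 - 4 * c / 3) / 2 with hε
  have hε0 : 0 < ε := by rw [hε]; linarith
  have hlim := ((tendsto_rpow_atTop hε0).comp tendsto_natCast_atTop_atTop).eventually_ge_atTop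
    (6 * (1 + 2 / ε))
  obtain ⟨n₀, hn₀⟩ := Filter.eventually_atTop.1 hlim
  refine ⟨1 / 26, by norm_num, n₀, fun n h2 hn a ha => ?_⟩
  have hN : (1 : ℝ) ≤ n := by exact_mod_cast (by omega)
  have hN0 : (0 : ℝ) < n := by linarith
  have hbig : 6 * (1 + 2 / ε) ≤ (n : ℝ) ^ ε := hn₀ n hn
  have hc1 : (1 : ℝ) ≤ (n : ℝ) ^ c := Real.one_le_rpow hN h0
  set m := ⌊(n : ℝ) ^ c⌋₊ with hmd
  have hm : 0 < m := Nat.floor_pos.2 hc1
  have hm1 : (m : ℝ) ≤ (n : ℝ) ^ c := Nat.floor_le (by linarith)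
  have hm2 : (n : ℝ) ^ c < m + 1 := Nat.lt_floor_add_one _
  have hm3 : (1 : ℝ) ≤ m := by exact_mod_cast hm
  obtain ⟨G, hG, hG1, hG2⟩ := cube m hm
  have hG3 : (G : ℝ) ≤ 2 * (n : ℝ) ^ (c / 3) := by
    apply le_of_pow_le_pow_left₀ (n := 3) (by norm_num) (by positivity)
    rw [mul_pow, ← Real.rpow_natCast ((n : ℝ) ^ (c / 3)), ← Real.rpow_mul hN0.le]
    have e : c / 3 * ((3 : ℕ) : ℝ) = c := by push_cast; ring
    have : ((G : ℝ)) ^ 3 ≤ 8 * m := by exact_mod_cast hG2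
    rw [e]; linarith
  have he1 : (1 : ℝ) ≤ (n : ℝ) ^ ε := Real.one_le_rpow hN hε0.le
  have hr : ((Nat.log 2 m + 1 : ℕ) : ℝ) ≤ (1 + 2 / ε) * (n : ℝ) ^ ε := by
    have a1 : ((2 : ℝ)) ^ (Nat.log 2 m) ≤ m := by exact_mod_cast Nat.pow_log_le_self 2 hm.ne'
    have a2 : (n : ℝ) ^ c ≤ n := by
      simpa using Real.rpow_le_rpow_of_exponent_le hN (show c ≤ 1 by linarith)
    have a3 := Real.log_le_log (by positivity) (a1.trans (hm1.trans a2))
    rw [Real.log_pow] at a3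
    have a4 := Real.log_le_rpow_div hN0.le hε0
    have a5 := Real.log_two_gt_d9
    have a6 : (0 : ℝ) ≤ (Nat.log 2 m : ℝ) := by positivity
    have a7 : (Nat.log 2 m : ℝ) ≤ 2 * ((n : ℝ) ^ ε / ε) := by nlinarith
    have a8 : (1 + 2 / ε) * (n : ℝ) ^ ε = (n : ℝ) ^ ε + 2 * ((n : ℝ) ^ ε / ε) := by ring
    push_cast; linarith
  have hn' : (2 * G * (Nat.log 2 m + 1) + 1) * m ≤ n := by
    have b1 : (2 * G * (Nat.log 2 m + 1) + 1) * m ≤ 3 * G * (Nat.log 2 m + 1) * m := by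
      apply Nat.mul_le_mul_right; nlinarith
    refine le_trans b1 ?_
    have b2 : (n : ℝ) = (n : ℝ) ^ (c / 3) * ((n : ℝ) ^ ε * (n : ℝ) ^ ε) * (n : ℝ) ^ c := by
      rw [← Real.rpow_add hN0, ← Real.rpow_add hN0, ← Real.rpow_add hN0]
      have : c / 3 + (ε + ε) + c = 1 := by rw [hε]; ring
      rw [this, Real.rpow_one]
    have b3 : (3 : ℝ) * G * ((Nat.log 2 m + 1 : ℕ) : ℝ) * m ≤
        3 * (2 * (n : ℝ) ^ (c / 3)) * ((1 + 2 / ε) * (n : ℝ) ^ ε) * (n : ℝ) ^ c := by gcongr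
    have b4 : 3 * (2 * (n : ℝ) ^ (c / 3)) * ((1 + 2 / ε) * (n : ℝ) ^ ε) * (n : ℝ) ^ c =
        (n : ℝ) ^ (c / 3) * (6 * (1 + 2 / ε) * (n : ℝ) ^ ε) * (n : ℝ) ^ c := by ring
    have b5 : (n : ℝ) ^ (c / 3) * (6 * (1 + 2 / ε) * (n : ℝ) ^ ε) * (n : ℝ) ^ c ≤
        (n : ℝ) ^ (c / 3) * ((n : ℝ) ^ ε * (n : ℝ) ^ ε) * (n : ℝ) ^ c := by gcongr
    have b6 : (3 : ℝ) * G * ((Nat.log 2 m + 1 : ℕ) : ℝ) * m ≤ n := by linarith
    exact_mod_cast b6
  have hcore := Pool.Agent.H.MP_15e61c_co.core (n := n) (a := a) (S := S n a) hm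
    (fun i hi => Nat.le_floor (ha i hi))
    (fun i j h1 h2 h3 => mem_image.2 ⟨(i, j), by
      simp only [mem_filter, mem_product, mem_Icc]; omega, rfl⟩)
    (Nat.log 2 m + 1) G (Nat.lt_pow_succ_log_self (by norm_num) m) hG hn'
  have h13 : m ≤ 13 * (S n a).card := by
    apply le_of_pow_le_pow_left₀ (n := 3) (by norm_num) (by positivity)
    have : m ^ 2 * m ≤ m ^ 2 * G ^ 3 := Nat.mul_le_mul_left _ hG1
    rw [mul_pow, pow_succ m 2]; omega
  have h14 : (m : ℝ) ≤ 13 * (S n a).card := by exact_mod_cast h13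
  linarith

theorem result : (∀ c : ℝ, 0 ≤ c → c < 3 / 4 → P c) ∧ (∀ c : ℝ, 449 / 500 ≤ c → ¬ P c) ∧
    3 / 4 ≤ sSup {c : ℝ | c ∈ Set.Icc (0 : ℝ) 1 ∧ P c} ∧
    sSup {c : ℝ | c ∈ Set.Icc (0 : ℝ) 1 ∧ P c} ≤ 449 / 500 := by
  refine ⟨isP, notP, ?_, Real.sSup_le (fun c hc => by
    by_contra h
    exact notP c (le_of_lt (not_le.1 h)) hc.2) (by norm_num)⟩
  have hb : BddAbove {c : ℝ | c ∈ Set.Icc (0 : ℝ) 1 ∧ P c} := ⟨1, fun c hc => hc.1.2⟩
  refine le_of_forall_lt_imp_le_of_dense (fun c hc => ?_)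
  have hm : max c 0 < 3 / 4 := max_lt hc (by norm_num)
  exact le_trans (le_max_left c 0) (le_csSup hb
    ⟨⟨le_max_right _ _, by linarith⟩, isP _ (le_max_right _ _) hm⟩)

end Pool.Agent.Results.MP_15e61c_co.Bounds
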